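import Pool.Agent.Helper54_Toeplitz.Exist

/-!
# Zero patterns of minors of totally nonnegative Toeplitz matrices

For all `m, n ≥ 1` we determine all zero patterns `Z(A)` of `m × n` totally nonnegative Toeplitz
matrices `A`: they are indexed bijectively by the subsets `S` of the set of diagonals of the matrix
(so there are exactly `2 ^ (m + n - 1)` of them), and the pattern belonging to `S` is given explicitly.
(`S` is the set of the diagonals `t` such that the largest square block centred on the diagonal `t`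
is nonsingular.)
-/

set_option autoImplicit false

namespace Pool.Agent.Results.MP_7f2858_co.Classification

open Matrix Pool.Agent.Helper54_Toeplitz

/-- The matrix `A` is Toeplitz: its entry in row `i` and column `j` depends only on `j - i`. -/
def IsToeplitz {m n : ℕ} (A : Matrix (Fin m) (Fin n) ℝ) : Prop :=
  ∃ c : ℤ → ℝ, ∀ (i : Fin m) (j : Fin n), A i j = c ((j : ℤ) - (i : ℤ))

/-- The minor of `A` with row set `I` and column set `J`, where `|J| = |I|`
(rows and columns taken in increasing order). -/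
noncomputable def minor {m n : ℕ} (A : Matrix (Fin m) (Fin n) ℝ) (I : Finset (Fin m))
    (J : Finset (Fin n)) (h : J.card = I.card) : ℝ :=
  (A.submatrix (I.orderEmbOfFin rfl) (J.orderEmbOfFin h)).det

/-- `A` is totally nonnegative: all its minors are nonnegative. -/
def IsTN {m n : ℕ} (A : Matrix (Fin m) (Fin n) ℝ) : Prop :=
  ∀ (I : Finset (Fin m)) (J : Finset (Fin n)) (h : J.card = I.card), 1 ≤ I.card → 0 ≤ minor A I J h

/-- The zero pattern `Z(A)`: all pairs `(I, J)` with `|I| = |J| ≥ 1` and vanishing minor. -/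
def zeroPattern {m n : ℕ} (A : Matrix (Fin m) (Fin n) ℝ) : Set (Finset (Fin m) × Finset (Fin n)) :=
  {p | ∃ h : p.2.card = p.1.card, 1 ≤ p.1.card ∧ minor A p.1 p.2 h = 0}

/-- For `-m < t < n`: the length of the diagonal `{(i, j) : j - i = t}` of an `m × n` matrix. -/
def diagLen (m n : ℕ) (t : ℤ) : ℤ := min (min (m : ℤ) n) (min ((m : ℤ) + t) ((n : ℤ) - t))

/-- For a set `S` of diagonals and `s ≥ 1` let `S_s` be the set of those `t ∈ S` for which the diagonal
`t` has length at least `s`. Then `T m n S s` is `S_s` itself if `s = min m n`, and it is the set of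
all integers lying (weakly) between two elements of `S_s` if `s < min m n`. -/
def T (m n : ℕ) (S : Set ℤ) (s : ℕ) : Set ℤ :=
  {u | ∃ t ∈ S, ∃ t' ∈ S, (s : ℤ) ≤ diagLen m n t ∧ (s : ℤ) ≤ diagLen m n t' ∧ t ≤ u ∧ u ≤ t' ∧
    (s < min m n ∨ t = t')}

/-- The pattern belonging to a set `S` of diagonals. Let `I = {i 0 < i 1 < ...}`, `J = {j 0 < j 1 < ...}`
with `|I| = |J| ≥ 1`. Then `(I, J)` belongs to the pattern if and only if there are indices `k ≤ l`
such that, with `s = l - k + 1`, no contiguous `s × s` block inside the rows `i k, ..., i l` and the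
columns `j k, ..., j l` lies on a diagonal from `T m n S s` (the contiguous `s × s` blocks inside
these rows and columns lie on the diagonals `u` with
`j k - i l + (s - 1) ≤ u ≤ j l - i k - (s - 1)`). -/
def pattern (m n : ℕ) (S : Set ℤ) : Set (Finset (Fin m) × Finset (Fin n)) :=
  {p | ∃ h : p.2.card = p.1.card, 1 ≤ p.1.card ∧ ∃ k l : Fin p.1.card, k ≤ l ∧
    ∀ u ∈ T m n S ((l : ℕ) - (k : ℕ) + 1),
      ¬ (((p.2.orderEmbOfFin h k : Fin n) : ℤ) - ((p.1.orderEmbOfFin rfl l : Fin m) : ℤ) +
            ((l : ℤ) - (k : ℤ)) ≤ u ∧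
          u ≤ ((p.2.orderEmbOfFin h l : Fin n) : ℤ) - ((p.1.orderEmbOfFin rfl k : Fin m) : ℤ) -
            ((l : ℤ) - (k : ℤ)))}

section proof

variable {m n : ℕ}

lemma mem_T_iff {c : ℤ → ℝ} (h : TNT c m n) {s : ℕ} (hs : 1 ≤ s) (u : ℤ) :
    u ∈ T m n (SS c m n) s ↔ (s : ℤ) ≤ ell m n u ∧ D c s u ≠ 0 := by
  constructor
  · rintro ⟨t, ht, t', ht', h1, h2, h3, h4, h5⟩
    have h1' : (s : ℤ) ≤ ell m n t := h1
    have h2' : (s : ℤ) ≤ ell m n t' := h2
    have hel : ∀ v, v ∈ SS c m n → (s : ℤ) ≤ ell m n v → D c s v ≠ 0 := by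
      intro v hv hv'
      refine D_ne_zero_of_le' h (s := (ell m n v).toNat) ?_ hv.2 (by omega)
      have := hv.1
      omega
    rcases h5 with h5 | h5
    · refine ⟨?_, support_interval h s h5 t t' u h3 h4 h1' h2' (hel _ ht h1') (hel _ ht' h2')⟩
      rw [le_ell] at h1' h2' ⊢
      omega
    · have : u = t := by omega
      subst this
      exact ⟨h1', hel _ ht h1'⟩
  · rintro ⟨h1, h2⟩
    by_cases hlt : s < min m n
    · obtain ⟨t', ht', hs', hle'⟩ := exists_ge h (min m n - s) s u hs (by omega) h1 h2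
      obtain ⟨t, ht, hst, hle⟩ := exists_le h (min m n - s) s u hs (by omega) h1 h2
      exact ⟨t, ht, t', ht', hst, hs', hle, hle', Or.inl hlt⟩
    · have h5 : ell m n u ≤ min (m : ℤ) n := min_le_left _ _
      have h6 : ell m n u = s := by omega
      have hu : u ∈ SS c m n := ⟨by omega, by rw [h6, Int.toNat_natCast]; exact h2⟩
      exact ⟨u, hu, u, hu, h1, h1, le_rfl, le_rfl, Or.inr rfl⟩

/-- Integer-valued index sequence of a finite set. -/
noncomputable def seq {N k : ℕ} (I : Finset (Fin N)) (h : I.card = k) : Fin k → ℤ :=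
  fun p => ((I.orderEmbOfFin h p : Fin N) : ℤ)

lemma seq_strictMono {N k : ℕ} (I : Finset (Fin N)) (h : I.card = k) : StrictMono (seq I h) := by
  intro p q hpq
  have : I.orderEmbOfFin h p < I.orderEmbOfFin h q := (I.orderEmbOfFin h).strictMono hpq
  simp only [seq]
  exact_mod_cast this

lemma seq_bounds {N k : ℕ} (I : Finset (Fin N)) (h : I.card = k) (p : Fin k) :
    0 ≤ seq I h p ∧ seq I h p ≤ (N : ℤ) - 1 := by
  have := (I.orderEmbOfFin h p).2
  simp only [seq]
  constructor <;> omega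

lemma minor_eq {A : Matrix (Fin m) (Fin n) ℝ} {c : ℤ → ℝ}
    (hA : ∀ (i : Fin m) (j : Fin n), A i j = c ((j : ℤ) - (i : ℤ)))
    (I : Finset (Fin m)) (J : Finset (Fin n)) (h : J.card = I.card) :
    minor A I J h = (mt (tp c) (seq I rfl) (seq J h)).det := by
  rw [minor]
  congr 1
  ext p q
  simp [hA, tp, seq]

lemma exists_finset {N s : ℕ} (i : Fin s → ℤ) (hi : StrictMono i)
    (hb : ∀ p, 0 ≤ i p ∧ i p ≤ (N : ℤ) - 1) :
    ∃ (I : Finset (Fin N)) (h : I.card = s), seq I h = i := by
  let f : Fin s → Fin N := fun p => ⟨(i p).toNat, by have := hb p; omega⟩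
  have hf : StrictMono f := by
    intro p q hpq
    have h1 := hi hpq
    have h2 := hb p
    rw [Fin.lt_def]
    simp only [f]
    omega
  refine ⟨Finset.univ.image f, ?_, ?_⟩
  · rw [Finset.card_image_of_injective _ hf.injective]; simp
  · funext p
    have hcard : (Finset.univ.image f).card = s := by
      rw [Finset.card_image_of_injective _ hf.injective]; simp
    have := Finset.orderEmbOfFin_unique hcard (f := f)
      (fun x => Finset.mem_image_of_mem f (Finset.mem_univ x)) hf
    simp only [seq]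
    rw [← congrFun this p]
    have h2 := hb p
    simp only [f]
    omega

lemma tnt_of_isTN {A : Matrix (Fin m) (Fin n) ℝ} {c : ℤ → ℝ}
    (hA : ∀ (i : Fin m) (j : Fin n), A i j = c ((j : ℤ) - (i : ℤ))) (h : IsTN A) : TNT c m n := by
  intro s i j hi hj hx hy
  obtain ⟨I, hI, rfl⟩ := exists_finset i hi hx
  obtain ⟨J, hJ, rfl⟩ := exists_finset j hj hy
  subst hI
  rcases Nat.eq_zero_or_pos I.card with h0 | h0
  · have : IsEmpty (Fin I.card) := by rw [h0]; infer_instance
    rw [det_isEmpty]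
    exact zero_le_one
  · have := h I J hJ h0
    rwa [minor_eq hA] at this

lemma isTN_of_tnt {A : Matrix (Fin m) (Fin n) ℝ} {c : ℤ → ℝ}
    (hA : ∀ (i : Fin m) (j : Fin n), A i j = c ((j : ℤ) - (i : ℤ))) (h : TNT c m n) : IsTN A := by
  intro I J hIJ _
  rw [minor_eq hA]
  exact h _ _ _ (seq_strictMono _ _) (seq_strictMono _ _) (seq_bounds _ _) (seq_bounds _ _)

/-- The key statement: the zero pattern is the pattern of `SS`. -/
lemma zeroPattern_eq {A : Matrix (Fin m) (Fin n) ℝ} {c : ℤ → ℝ}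
    (hA : ∀ (i : Fin m) (j : Fin n), A i j = c ((j : ℤ) - (i : ℤ))) (h : TNT c m n) :
    zeroPattern A = pattern m n (SS c m n) := by
  ext ⟨I, J⟩
  have key : ∀ hIJ : J.card = I.card, minor A I J hIJ = 0 ↔
      ∃ k l : Fin I.card, k ≤ l ∧ ∀ u ∈ T m n (SS c m n) ((l : ℕ) - (k : ℕ) + 1),
      ¬ (((J.orderEmbOfFin hIJ k : Fin n) : ℤ) - ((I.orderEmbOfFin rfl l : Fin m) : ℤ) +
            ((l : ℤ) - (k : ℤ)) ≤ u ∧
          u ≤ ((J.orderEmbOfFin hIJ l : Fin n) : ℤ) - ((I.orderEmbOfFin rfl k : Fin m) : ℤ) -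
            ((l : ℤ) - (k : ℤ))) := by
    intro hIJ
    have hGood : minor A I J hIJ ≠ 0 ↔ Good c (seq I rfl) (seq J hIJ) := by
      rw [minor_eq hA]
      exact ⟨good_of_det_ne_zero h _ _ (seq_strictMono _ _) (seq_strictMono _ _) (seq_bounds _ _)
        (seq_bounds _ _), det_ne_zero_of_good h _ _ (seq_strictMono _ _) (seq_strictMono _ _)
        (seq_bounds _ _) (seq_bounds _ _)⟩
    rw [← not_iff_not]
    refine hGood.trans ?_
    push Not
    constructor
    · intro hG k l hkl
      obtain ⟨t, h1, h2, h3⟩ := hG k l hkl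
      refine ⟨t, ?_, h1, h2⟩
      rw [mem_T_iff h (by omega)]
      refine ⟨?_, h3⟩
      have a1 := gap_le (seq_strictMono I rfl) hkl
      have a2 := gap_le (seq_strictMono J hIJ) hkl
      have b1 := seq_bounds I rfl k
      have b2 := seq_bounds I rfl l
      have b3 := seq_bounds J hIJ k
      have b4 := seq_bounds J hIJ l
      have hkl' : (k : ℕ) ≤ l := hkl
      rw [le_ell]
      push_cast [hkl']
      omega
    · intro hG k l hkl
      obtain ⟨u, hu, h1, h2⟩ := hG k l hkl
      rw [mem_T_iff h (by omega)] at hu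
      exact ⟨u, h1, h2, hu.2⟩
  constructor
  · rintro ⟨hIJ, h1, h2⟩
    exact ⟨hIJ, h1, (key hIJ).1 h2⟩
  · rintro ⟨hIJ, h1, h2⟩
    exact ⟨hIJ, h1, (key hIJ).2 h2⟩

lemma one_le_ell_iff (hm : 1 ≤ m) (hn : 1 ≤ n) (t : ℤ) :
    1 ≤ ell m n t ↔ t ∈ Set.Ioo (-(m : ℤ)) (n : ℤ) := by
  rw [le_ell, Set.mem_Ioo]
  omega

end proof

/-- **Classification of the zero patterns of totally nonnegative Toeplitz matrices.**
For `m, n ≥ 1`, the map `S ↦ pattern m n S` is a bijection from the set of all subsets of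
`{t : -m < t < n}` onto the set of all zero patterns of `m × n` totally nonnegative Toeplitz
matrices. -/
theorem result (m n : ℕ) (hm : 1 ≤ m) (hn : 1 ≤ n) :
    Set.BijOn (pattern m n) (𝒫 (Set.Ioo (-(m : ℤ)) (n : ℤ)))
      {Z | ∃ A : Matrix (Fin m) (Fin n) ℝ, IsToeplitz A ∧ IsTN A ∧ zeroPattern A = Z} := by
  have hex : ∀ S ∈ 𝒫 (Set.Ioo (-(m : ℤ)) (n : ℤ)), ∃ (A : Matrix (Fin m) (Fin n) ℝ) (c : ℤ → ℝ),
      (∀ (i : Fin m) (j : Fin n), A i j = c ((j : ℤ) - (i : ℤ))) ∧ TNT c m n ∧ SS c m n = S := by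
    intro S hS
    obtain ⟨c, hc, hSS⟩ := exists_SS m n S
    refine ⟨of fun i j => c ((j : ℤ) - (i : ℤ)), c, fun _ _ => rfl, hc, ?_⟩
    rw [hSS]
    ext t
    constructor
    · rintro ⟨h, -⟩; exact h
    · intro h; exact ⟨h, (one_le_ell_iff hm hn t).2 (hS h)⟩
  refine ⟨?_, ?_, ?_⟩
  · intro S hS
    obtain ⟨A, c, hA, hc, hSS⟩ := hex S hS
    refine ⟨A, ⟨c, hA⟩, isTN_of_tnt hA hc, ?_⟩
    rw [zeroPattern_eq hA hc, hSS]
  · intro S hS S' hS' hpat
    obtain ⟨A, c, hA, hc, hSS⟩ := hex S hS
    obtain ⟨A', c', hA', hc', hSS'⟩ := hex S' hS'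
    have hzz : zeroPattern A = zeroPattern A' := by
      rw [zeroPattern_eq hA hc, zeroPattern_eq hA' hc', hSS, hSS']; exact hpat
    have hzS : ∀ t, t ∈ S ↔ t ∈ S' := by
      intro t
      by_cases ht : 1 ≤ ell m n t
      · -- the same pair works for both matrices
        obtain ⟨x, y, hx0, hx1, hy0, hy1, hxy⟩ := fits (m := m) (n := n)
          (s := (ell m n t).toNat) (t := t) (by omega)
        obtain ⟨I, hI, hIs⟩ := exists_finset (N := m)
          (fun p : Fin (ell m n t).toNat => x + (p : ℤ)) (strictMono_contig x _)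
          (fun p => by have := p.2; constructor <;> omega)
        obtain ⟨J, hJ, hJs⟩ := exists_finset (N := n)
          (fun p : Fin (ell m n t).toNat => y + (p : ℤ)) (strictMono_contig y _)
          (fun p => by have := p.2; constructor <;> omega)
        have hIJ : J.card = I.card := hJ.trans hI.symm
        have hm' : ∀ (B : Matrix (Fin m) (Fin n) ℝ) (d : ℤ → ℝ),
            (∀ (i : Fin m) (j : Fin n), B i j = d ((j : ℤ) - (i : ℤ))) →
            (t ∈ SS d m n ↔ (I, J) ∉ zeroPattern B) := by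
          intro B d hB
          have hdet : ∀ (k : ℕ) (hI : I.card = k) (hJ : J.card = k),
              minor B I J (hJ.trans hI.symm) = (mt (tp d) (seq I hI) (seq J hJ)).det := by
            intro k hI hJ
            subst hI
            exact minor_eq hB I J hJ
          have hmm : minor B I J hIJ = D d (ell m n t).toNat t := by
            rw [hdet _ hI hJ, hIs, hJs, det_contiguous d _ _ _ x y (fun _ => rfl) (fun _ => rfl),
              hxy]
          constructor
          · rintro ⟨-, h2⟩ ⟨hIJ', -, h3⟩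
            exact h2 (hmm ▸ h3)
          · intro h2
            exact ⟨ht, fun h3 => h2 ⟨hIJ, by show 1 ≤ I.card; omega, hmm.trans h3⟩⟩
        have e1 := hm' A c hA
        have e2 := hm' A' c' hA'
        rw [hSS] at e1
        rw [hSS'] at e2
        rw [e1, e2, hzz]
      · have h1 : t ∉ S := fun h => ht ((one_le_ell_iff hm hn t).2 (hS h))
        have h2 : t ∉ S' := fun h => ht ((one_le_ell_iff hm hn t).2 (hS' h))
        exact iff_of_false h1 h2
    exact Set.ext hzS
  · rintro Z ⟨A, ⟨c, hA⟩, hTN, rfl⟩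
    have hc := tnt_of_isTN hA hTN
    refine ⟨SS c m n, ?_, (zeroPattern_eq hA hc).symm⟩
    intro t ht
    exact (one_le_ell_iff hm hn t).1 ht.1

end Pool.Agent.Results.MP_7f2858_co.Classification
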